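import Pool.Agent.KS6_49.TC.Logic
import Pool.Agent.KS6_49.TC.Graphs

/-!
Clique blow-ups: every sentence of `TC^1_0` about the blow-up `Bl G k` (every vertex of `G` is
replaced by a clique with `k` vertices) translates into a sentence of `TC^1_0` about `G`.
-/

set_option autoImplicit false

namespace Pool.Agent.KS6_49.TC

open Relation

/-- The blow-up: every vertex is replaced by a clique with `k` vertices. -/
def Bl {V : Type} (G : SimpleGraph V) (k : ℕ) : SimpleGraph (V × Fin k) where
  Adj x y := G.Adj x.1 y.1 ∨ (x.1 = y.1 ∧ x.2 ≠ y.2)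
  symm := ⟨by
    rintro x y (h | ⟨h1, h2⟩)
    · exact Or.inl h.symm
    · exact Or.inr ⟨h1.symm, h2.symm⟩⟩
  loopless := ⟨by
    rintro x (h | ⟨_, h2⟩)
    · exact G.loopless.irrefl _ h
    · exact h2 rfl⟩

theorem vec2 {A : Type} (f : Fin 2 → A) : f = ![f 0, f 1] := by
  funext i
  fin_cases i <;> rfl

theorem sat_iso {V W : Type} {G : SimpleGraph V} {H : SimpleGraph W} (e : V ≃ W)
    (he : ∀ x y, H.Adj (e x) (e y) ↔ G.Adj x y) {n : ℕ} (φ : Fm n) : ∀ (a : Fin n → V),
    sat H φ (fun i => e (a i)) ↔ sat G φ a := by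
  induction φ with
  | eq i j => intro a; exact e.apply_eq_iff_eq
  | adj i j => intro a; exact he _ _
  | neg φ ih => intro a; exact not_congr (ih a)
  | and φ ψ ih1 ih2 => intro a; exact and_congr (ih1 a) (ih2 a)
  | ex φ ih =>
    intro a
    have hc : ∀ v : V, (Fin.cons (e v) (fun i => e (a i)) : Fin _ → W) =
        fun i => e ((Fin.cons v a : Fin _ → V) i) := by
      intro v
      funext i
      refine Fin.cases ?_ ?_ i
      · rfl
      · intro j; rfl
    constructor
    · rintro ⟨w, hw⟩
      refine ⟨e.symm w, ?_⟩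
      rw [← ih, ← hc, e.apply_symm_apply]
      exact hw
    · rintro ⟨v, hv⟩
      refine ⟨e v, ?_⟩
      rw [hc, ih]
      exact hv
  | tc φ s t ih =>
    intro a
    have hc : ∀ x y : V, sat H φ ![e x, e y] ↔ sat G φ ![x, y] := by
      intro x y
      rw [← ih]
      have : (fun i => e ((![x, y] : Fin 2 → V) i)) = ![e x, e y] := by
        rw [vec2 (fun i => e ((![x, y] : Fin 2 → V) i))]
        rfl
      rw [this]
    show TransGen (fun x y : W => sat H φ ![x, y]) (e (a s)) (e (a t)) ↔
      TransGen (fun x y : V => sat G φ ![x, y]) (a s) (a t)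
    constructor
    · intro h
      have h2 := TransGen.lift (p := fun x y : V => sat G φ ![x, y]) e.symm (fun x y hxy => by
        show sat G φ ![e.symm x, e.symm y]
        rw [← hc, e.apply_symm_apply, e.apply_symm_apply]
        exact hxy) _ _ h
      simpa [Function.onFun] using h2
    · intro h
      exact TransGen.lift (p := fun x y : W => sat H φ ![x, y]) e (fun x y hxy => (hc x y).2 hxy) _ _ h

/-! ### derived connectives -/

/-- false -/
def bot {n : ℕ} : Fm n := .and (.ex (.eq 0 0)) (.neg (.ex (.eq 0 0)))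

/-- disjunction -/
def or {n : ℕ} (φ ψ : Fm n) : Fm n := .neg (.and (.neg φ) (.neg ψ))

/-- disjunction of a list -/
def bigor {n : ℕ} : List (Fm n) → Fm n
  | [] => bot
  | φ :: l => or φ (bigor l)

theorem sat_bot {V : Type} {G : SimpleGraph V} {n : ℕ} {a : Fin n → V} : ¬ sat G bot a := by
  rintro ⟨h1, h2⟩
  exact h2 h1

theorem sat_or {V : Type} {G : SimpleGraph V} {n : ℕ} {a : Fin n → V} {φ ψ : Fm n} :
    sat G (or φ ψ) a ↔ (sat G φ a ∨ sat G ψ a) := by
  show (¬ (¬ sat G φ a ∧ ¬ sat G ψ a)) ↔ _
  tauto

theorem sat_bigor {V : Type} {G : SimpleGraph V} {n : ℕ} {a : Fin n → V} {l : List (Fm n)} :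
    sat G (bigor l) a ↔ ∃ φ ∈ l, sat G φ a := by
  induction l with
  | nil =>
    constructor
    · intro h; exact (sat_bot h).elim
    · rintro ⟨φ, h, _⟩; simp at h
  | cons φ l ih =>
    show sat G (or φ (bigor l)) a ↔ _
    rw [sat_or, ih]
    simp

/-! ### the translation -/

/-- the relation `φ(x, y)` on one vertex -/
def dg {n : ℕ} (φ : Fm 2) (s : Fin n) : Fm n := .tc (.and (.eq 0 1) φ) s s

theorem sat_dg {V : Type} {G : SimpleGraph V} {n : ℕ} {a : Fin n → V} {φ : Fm 2} {s : Fin n} :
    sat G (dg φ s) a ↔ sat G φ ![a s, a s] := by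
  constructor
  · intro h
    have key : ∀ y : V, TransGen (fun x y : V => sat G (.and (.eq 0 1) φ) ![x, y]) (a s) y →
        a s = y ∧ sat G φ ![a s, a s] := by
      intro y hy
      induction hy with
      | @single b h1 =>
        have h2 : a s = b := h1.1
        refine ⟨h2, ?_⟩
        have h3 : sat G φ ![a s, b] := h1.2
        rwa [← h2] at h3
      | @tail b c _ h1 ih =>
        have h2 : b = c := h1.1
        exact ⟨ih.1.trans h2, ih.2⟩
    exact (key _ h).2
  · intro h
    exact TransGen.single ⟨rfl, h⟩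

open Classical in
/-- the translation; `c` says in which copy the free variables lie -/
noncomputable def tr (k : ℕ) : {n : ℕ} → Fm n → (Fin n → Fin k) → Fm n
  | _, .eq i j, c => if c i = c j then .eq i j else bot
  | _, .adj i j, c => if c i = c j then .adj i j else or (.adj i j) (.eq i j)
  | _, .neg φ, c => .neg (tr k φ c)
  | _, .and φ ψ, c => .and (tr k φ c) (tr k ψ c)
  | _, .ex φ, c => bigor ((List.finRange k).map fun d => .ex (tr k φ (Fin.cons d c)))
  | _, .tc φ s t, c => or (.tc (.and (.neg (.eq 0 1)) (tr k φ ![c s, c s])) s t)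
      (.and (.eq s t) (or (dg (tr k φ ![c s, c t]) s)
        (if c s = c t then
          bigor ((List.finRange k).map fun d =>
            if d = c s then bot else dg (tr k φ ![c s, d]) s)
        else bot)))

section rel

variable {V : Type} [DecidableEq V] {k : ℕ}

/-- swap two copies of one vertex -/
def fs (u : V) (a b : Fin k) : V × Fin k ≃ V × Fin k where
  toFun x := if x.1 = u then (x.1, Equiv.swap a b x.2) else x
  invFun x := if x.1 = u then (x.1, Equiv.swap a b x.2) else x
  left_inv := by
    rintro ⟨v, i⟩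
    by_cases h : v = u
    · simp [h]
    · simp [h]
  right_inv := by
    rintro ⟨v, i⟩
    by_cases h : v = u
    · simp [h]
    · simp [h]

theorem fs_same (u : V) (a b i : Fin k) : fs u a b (u, i) = (u, Equiv.swap a b i) := by
  simp [fs]

theorem fs_ne {u v : V} (h : v ≠ u) (a b i : Fin k) : fs u a b (v, i) = (v, i) := by
  simp [fs, h]

theorem fs_adj (G : SimpleGraph V) (u : V) (a b : Fin k) (x y : V × Fin k) :
    (Bl G k).Adj (fs u a b x) (fs u a b y) ↔ (Bl G k).Adj x y := by
  obtain ⟨v, i⟩ := x
  obtain ⟨w, j⟩ := y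
  by_cases hv : v = u
  · by_cases hw : w = u
    · subst hv; subst hw
      rw [fs_same, fs_same]
      simp [Bl]
    · subst hv
      rw [fs_same, fs_ne hw]
      simp [Bl, Ne.symm hw]
  · by_cases hw : w = u
    · subst hw
      rw [fs_same, fs_ne hv]
      simp [Bl, hv]
    · rw [fs_ne hv, fs_ne hw]

variable {R : V × Fin k → V × Fin k → Prop}

theorem rel_ne (hR : ∀ u a b x y, R (fs u a b x) (fs u a b y) ↔ R x y) {u v : V} (h : u ≠ v)
    (i i' j j' : Fin k) (h1 : R (u, i) (v, j)) : R (u, i') (v, j') := by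
  have h2 := (hR u i i' _ _).2 h1
  rw [fs_same, fs_ne h.symm, Equiv.swap_apply_left] at h2
  have h3 := (hR v j j' _ _).2 h2
  rw [fs_same, fs_ne h, Equiv.swap_apply_left] at h3
  exact h3

theorem rel_tc (hR : ∀ u a b x y, R (fs u a b x) (fs u a b y) ↔ R x y) (o : Fin k) (u v : V)
    (i j : Fin k) : TransGen R (u, i) (v, j) ↔
      (TransGen (fun x y : V => ¬ x = y ∧ R (x, o) (y, o)) u v ∨
        (u = v ∧ (R (u, i) (u, j) ∨ (i = j ∧ ∃ d, d ≠ i ∧ R (u, i) (u, d))))) := by
  constructor
  · intro h
    have key : ∀ y : V × Fin k, TransGen R (u, i) y →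
        (TransGen (fun x y : V => ¬ x = y ∧ R (x, o) (y, o)) u y.1 ∨
        (u = y.1 ∧ (R (u, i) (u, y.2) ∨ (i = y.2 ∧ ∃ d, d ≠ i ∧ R (u, i) (u, d))))) := by
      intro y hy
      induction hy with
      | @single y h1 =>
        obtain ⟨v, j⟩ := y
        by_cases hv : u = v
        · subst hv
          exact Or.inr ⟨rfl, Or.inl h1⟩
        · exact Or.inl (TransGen.single ⟨hv, rel_ne hR hv _ _ _ _ h1⟩)
      | @tail y w _ h1 ih =>
        obtain ⟨v, j⟩ := y
        obtain ⟨w, l⟩ := w
        by_cases hv : v = w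
        · subst hv
          rcases ih with ih | ⟨h2, h3⟩
          · exact Or.inl ih
          · have h2' : u = v := h2
            subst h2'
            refine Or.inr ⟨rfl, ?_⟩
            by_cases hij : i = j
            · subst hij
              exact Or.inl h1
            · have h4 : R (u, i) (u, j) := by
                rcases h3 with h3 | ⟨h3, _⟩
                · exact h3
                · exact absurd h3 hij
              by_cases hil : l = i
              · exact Or.inr ⟨hil.symm, j, Ne.symm hij, h4⟩
              · left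
                have h5 := (hR u j l _ _).2 h4
                rw [fs_same, fs_same, Equiv.swap_apply_left,
                  Equiv.swap_apply_of_ne_of_ne hij (Ne.symm hil)] at h5
                exact h5
        · have h5 : ¬ v = w ∧ R (v, o) (w, o) := ⟨hv, rel_ne hR hv _ _ _ _ h1⟩
          rcases ih with ih | ⟨h2, _⟩
          · exact Or.inl (ih.tail h5)
          · have h2' : u = v := h2
            subst h2'
            exact Or.inl (TransGen.single h5)
    exact key _ h
  · rintro (h | ⟨rfl, h | ⟨rfl, d, hd, h⟩⟩)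
    · have key : ∀ y : V, TransGen (fun x y : V => ¬ x = y ∧ R (x, o) (y, o)) u y →
          ∀ j : Fin k, TransGen R (u, i) (y, j) := by
        intro y hy
        induction hy with
        | @single y h1 => intro j; exact TransGen.single (rel_ne hR h1.1 _ _ _ _ h1.2)
        | @tail y w _ h1 ih => intro j; exact (ih o).tail (rel_ne hR h1.1 _ _ _ _ h1.2)
      exact key _ h j
    · exact TransGen.single h
    · have h2 := (hR u i d _ _).2 h
      rw [fs_same, fs_same, Equiv.swap_apply_left, Equiv.swap_apply_right] at h2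
      exact (TransGen.single h).tail h2

end rel

theorem sat_tr {V : Type} (G : SimpleGraph V) (k : ℕ) {n : ℕ} (φ : Fm n) :
    ∀ (c : Fin n → Fin k) (a : Fin n → V),
      sat G (tr k φ c) a ↔ sat (Bl G k) φ (fun i => (a i, c i)) := by
  classical
  induction φ with
  | eq i j =>
    intro c a
    show sat G (if c i = c j then .eq i j else bot) a ↔ (a i, c i) = (a j, c j)
    rw [Prod.mk.injEq]
    split_ifs with h
    · show a i = a j ↔ _
      simp [h]
    · constructor
      · intro h1; exact (sat_bot h1).elim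
      · intro h1; exact absurd h1.2 h
  | adj i j =>
    intro c a
    show sat G (if c i = c j then .adj i j else or (.adj i j) (.eq i j)) a ↔
      (G.Adj (a i) (a j) ∨ (a i = a j ∧ c i ≠ c j))
    split_ifs with h
    · show G.Adj (a i) (a j) ↔ _
      simp [h]
    · rw [sat_or]
      show (G.Adj (a i) (a j) ∨ a i = a j) ↔ _
      simp [h]
  | neg φ ih => intro c a; exact not_congr (ih c a)
  | and φ ψ ih1 ih2 => intro c a; exact and_congr (ih1 c a) (ih2 c a)
  | ex φ ih =>
    intro c a
    have hc : ∀ (v : V) (d : Fin k), (Fin.cons (v, d) (fun i => (a i, c i)) : Fin _ → V × Fin k) =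
        fun i => ((Fin.cons v a : Fin _ → V) i, (Fin.cons d c : Fin _ → Fin k) i) := by
      intro v d
      funext i
      refine Fin.cases ?_ ?_ i
      · rfl
      · intro j; rfl
    show sat G (bigor ((List.finRange k).map fun d => .ex (tr k φ (Fin.cons d c)))) a ↔
      ∃ x : V × Fin k, sat (Bl G k) φ (Fin.cons x (fun i => (a i, c i)))
    rw [sat_bigor]
    constructor
    · rintro ⟨ψ, hψ, h⟩
      obtain ⟨d, _, rfl⟩ := List.mem_map.1 hψ
      obtain ⟨v, hv⟩ := h
      refine ⟨(v, d), ?_⟩
      rw [hc, ← ih]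
      exact hv
    · rintro ⟨⟨v, d⟩, h⟩
      refine ⟨_, List.mem_map.2 ⟨d, List.mem_finRange d, rfl⟩, v, ?_⟩
      rw [hc, ← ih] at h
      exact h
  | tc φ s t ih =>
    intro c a
    have hc : ∀ (x y : V) (i j : Fin k), sat G (tr k φ ![i, j]) ![x, y] ↔
        sat (Bl G k) φ ![(x, i), (y, j)] := by
      intro x y i j
      rw [ih]
      have : (fun l => ((![x, y] : Fin 2 → V) l, (![i, j] : Fin 2 → Fin k) l)) =
          ![(x, i), (y, j)] := by
        rw [vec2 (fun l => ((![x, y] : Fin 2 → V) l, (![i, j] : Fin 2 → Fin k) l))]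
        rfl
      rw [this]
    have hR : ∀ (u : V) (a b : Fin k) (x y : V × Fin k),
        sat (Bl G k) φ ![fs u a b x, fs u a b y] ↔ sat (Bl G k) φ ![x, y] := by
      intro u a b x y
      rw [← sat_iso (fs u a b) (fs_adj G u a b) φ ![x, y]]
      have : (fun i => fs u a b ((![x, y] : Fin 2 → V × Fin k) i)) =
          ![fs u a b x, fs u a b y] := by
        rw [vec2 (fun i => fs u a b ((![x, y] : Fin 2 → V × Fin k) i))]
        rfl
      rw [this]
    show sat G (or (.tc (.and (.neg (.eq 0 1)) (tr k φ ![c s, c s])) s t)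
      (.and (.eq s t) (or (dg (tr k φ ![c s, c t]) s)
        (if c s = c t then
          bigor ((List.finRange k).map fun d =>
            if d = c s then bot else dg (tr k φ ![c s, d]) s)
        else bot)))) a ↔
      TransGen (fun x y : V × Fin k => sat (Bl G k) φ ![x, y]) (a s, c s) (a t, c t)
    rw [rel_tc (R := fun x y : V × Fin k => sat (Bl G k) φ ![x, y]) hR (c s), sat_or]
    have e1 : (fun x y : V => sat G (.and (.neg (.eq 0 1)) (tr k φ ![c s, c s])) ![x, y]) =
        fun x y : V => ¬ x = y ∧ sat (Bl G k) φ ![(x, c s), (y, c s)] := by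
      funext x y
      refine propext ?_
      show (¬ x = y ∧ sat G (tr k φ ![c s, c s]) ![x, y]) ↔ _
      rw [hc]
    refine or_congr ?_ ?_
    · show TransGen (fun x y : V => sat G (.and (.neg (.eq 0 1)) (tr k φ ![c s, c s])) ![x, y])
        (a s) (a t) ↔ _
      rw [e1]
    · show (a s = a t ∧ sat G (or (dg (tr k φ ![c s, c t]) s)
        (if c s = c t then
          bigor ((List.finRange k).map fun d =>
            if d = c s then bot else dg (tr k φ ![c s, d]) s)
        else bot)) a) ↔ _
      refine and_congr_right fun _ => ?_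
      rw [sat_or, sat_dg, hc]
      refine or_congr Iff.rfl ?_
      split_ifs with h
      · rw [sat_bigor]
        constructor
        · rintro ⟨ψ, hψ, h1⟩
          obtain ⟨d, _, rfl⟩ := List.mem_map.1 hψ
          split_ifs at h1 with h2
          · exact (sat_bot h1).elim
          · rw [sat_dg, hc] at h1
            exact ⟨h, d, h2, h1⟩
        · rintro ⟨_, d, h2, h1⟩
          refine ⟨_, List.mem_map.2 ⟨d, List.mem_finRange d, rfl⟩, ?_⟩
          rw [if_neg h2, sat_dg, hc]
          exact h1
      · constructor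
        · intro h1; exact (sat_bot h1).elim
        · intro h1; exact absurd h1.1 h

/-- A sentence of `TC^1_0` cannot distinguish the blow-ups of two graphs of the class `Good g`
when `g` is large. -/
theorem bl_main (k : ℕ) (φ : Fm 0) : ∃ g : ℕ, ∀ (V V' : Type) (G : SimpleGraph V)
    (G' : SimpleGraph V'), Good g G → Good g G' → (sat (Bl G k) φ ![] ↔ sat (Bl G' k) φ ![]) := by
  obtain ⟨g, hg⟩ := logic_main (tr k φ ![])
  refine ⟨g, fun V V' G G' h1 h2 => ?_⟩
  have h3 := hg V V' G G' h1 h2
  rw [sat_tr, sat_tr] at h3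
  have e1 : (fun i : Fin 0 => ((![] : Fin 0 → V) i, (![] : Fin 0 → Fin k) i)) = ![] := by
    funext i; exact i.elim0
  have e2 : (fun i : Fin 0 => ((![] : Fin 0 → V') i, (![] : Fin 0 → Fin k) i)) = ![] := by
    funext i; exact i.elim0
  rwa [e1, e2] at h3

end Pool.Agent.KS6_49.TC
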