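import Pool.Agent.KS6_49.TC.Blow

/-!
Connectivity of clique blow-ups.
-/

set_option autoImplicit false

namespace Pool.Agent.KS6_49.TC

open Relation SimpleGraph

/-- `G` is `k`-connected: it has more than `k` vertices and `G - Z` is connected for every set `Z`
of fewer than `k` vertices. -/
def KConn {V : Type} (k : ℕ) (G : SimpleGraph V) : Prop :=
  k < Nat.card V ∧ ∀ Z : Finset V, Z.card < k → (G.induce (Z : Set V)ᶜ).Preconnected

theorem KConn.mono {V : Type} {k l : ℕ} {G : SimpleGraph V} (h : KConn k G) (hl : l ≤ k) :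
    KConn l G := ⟨hl.trans_lt h.1, fun Z hZ => h.2 Z (hZ.trans_le hl)⟩

section

variable {V : Type} {G : SimpleGraph V} {k : ℕ}

/-- reachability avoiding `Z` in the blow-up -/
theorem bl_reach {Z : Finset (V × Fin k)} {A : Set V}
    (hA : ∀ u ∈ A, ∃ i, (u, i) ∉ Z) {x y : A} (w : (G.induce A).Walk x y) :
    ∀ (i j : Fin k) (hi : ((x : V), i) ∈ ((Z : Set (V × Fin k))ᶜ))
      (hj : ((y : V), j) ∈ ((Z : Set (V × Fin k))ᶜ)),
      ((Bl G k).induce (Z : Set (V × Fin k))ᶜ).Reachable ⟨_, hi⟩ ⟨_, hj⟩ := by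
  induction w with
  | nil =>
    intro i j hi hj
    by_cases h : i = j
    · subst h; exact Reachable.refl _
    · have h1 : ((Bl G k).induce (Z : Set (V × Fin k))ᶜ).Adj ⟨_, hi⟩ ⟨_, hj⟩ := Or.inr ⟨rfl, h⟩
      exact h1.reachable
  | @cons x y z h w ih =>
    intro i j hi hj
    obtain ⟨l, hl⟩ := hA y.1 y.2
    have hl' : ((y : V), l) ∈ ((Z : Set (V × Fin k))ᶜ) := hl
    have h1 : ((Bl G k).induce (Z : Set (V × Fin k))ᶜ).Adj ⟨_, hi⟩ ⟨_, hl'⟩ := by
      show (Bl G k).Adj (x.1, i) (y.1, l)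
      exact Or.inl h
    exact h1.reachable.trans (ih l j hl' hj)

theorem bl_pre {Z : Finset (V × Fin k)} {A : Set V}
    (hA : ∀ u ∈ A, ∃ i, (u, i) ∉ Z) (hA2 : ∀ u i, (u, i) ∉ Z → u ∈ A)
    (hG : (G.induce A).Preconnected) : ((Bl G k).induce (Z : Set (V × Fin k))ᶜ).Preconnected := by
  rintro ⟨⟨x, i⟩, hx⟩ ⟨⟨y, j⟩, hy⟩
  obtain ⟨w⟩ := hG ⟨x, hA2 x i hx⟩ ⟨y, hA2 y j hy⟩
  exact bl_reach hA w i j hx hy

theorem bl_back {z : V} {x y : (((({z} : Finset V) ×ˢ (Finset.univ : Finset (Fin k)) :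
    Finset (V × Fin k)) : Set (V × Fin k))ᶜ : Set (V × Fin k))}
    (w : ((Bl G k).induce ((({z} : Finset V) ×ˢ (Finset.univ : Finset (Fin k)) :
      Finset (V × Fin k)) : Set (V × Fin k))ᶜ).Walk x y) :
    ∀ (hx : x.1.1 ∈ ({z} : Set V)ᶜ) (hy : y.1.1 ∈ ({z} : Set V)ᶜ),
      (G.induce {z}ᶜ).Reachable ⟨_, hx⟩ ⟨_, hy⟩ := by
  induction w with
  | nil => intro hx hy; exact Reachable.refl _
  | @cons x y w h _ ih =>
    intro hx hw
    have hy : y.1.1 ∈ ({z} : Set V)ᶜ := by
      intro h2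
      apply y.2
      simp only [Finset.coe_product, Set.mem_prod]
      exact ⟨by simpa using h2, by simp⟩
    refine Reachable.trans ?_ (ih hy hw)
    have h2 : (Bl G k).Adj x.1 y.1 := h
    rcases h2 with h2 | ⟨h2, _⟩
    · exact Adj.reachable (show G.Adj _ _ from h2)
    · have : (⟨x.1.1, hx⟩ : (({z} : Set V)ᶜ : Set V)) = ⟨y.1.1, hy⟩ := Subtype.ext h2
      rw [this]

theorem pre_univ (hG : G.Preconnected) : (G.induce (Set.univ : Set V)).Preconnected := by
  rintro ⟨x, hx⟩ ⟨y, hy⟩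
  let f : G →g G.induce (Set.univ : Set V) := ⟨fun v => ⟨v, Set.mem_univ v⟩, fun h => h⟩
  exact (hG x y).map f

theorem bl_conn [Finite V] (hk : 1 ≤ k) (hV : 2 ≤ Nat.card V) (hG : G.Preconnected) :
    KConn k (Bl G k) := by
  classical
  refine ⟨?_, fun Z hZ => ?_⟩
  · rw [Nat.card_prod, Nat.card_eq_fintype_card (α := Fin k), Fintype.card_fin]
    nlinarith
  · have hA : ∀ u ∈ (Set.univ : Set V), ∃ i, (u, i) ∉ Z := by
      intro u _
      by_contra hcon
      push Not at hcon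
      have h1 : ({u} : Finset V) ×ˢ (Finset.univ : Finset (Fin k)) ⊆ Z := by
        rintro ⟨v, i⟩ h
        rw [Finset.mem_product, Finset.mem_singleton] at h
        obtain ⟨h, _⟩ := h
        have h' : v = u := h
        subst h'
        exact hcon i
      have h2 := Finset.card_le_card h1
      rw [Finset.card_product, Finset.card_singleton, Finset.card_univ, Fintype.card_fin] at h2
      omega
    exact bl_pre hA (fun u _ _ => Set.mem_univ u) (pre_univ hG)

theorem bl_two [Finite V] (hk : 1 ≤ k) (hV : 3 ≤ Nat.card V) (hG : G.Preconnected)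
    (hG2 : TwoConn G) : KConn (2 * k) (Bl G k) := by
  classical
  refine ⟨?_, fun Z hZ => ?_⟩
  · rw [Nat.card_prod, Nat.card_eq_fintype_card (α := Fin k), Fintype.card_fin]
    nlinarith
  · by_cases hf : ∃ z : V, ∀ i, (z, i) ∈ Z
    · obtain ⟨z, hz⟩ := hf
      have hA : ∀ u ∈ ({z}ᶜ : Set V), ∃ i, (u, i) ∉ Z := by
        intro u hu
        by_contra hcon
        push Not at hcon
        have hu' : u ≠ z := hu
        have h1 : ({u, z} : Finset V) ×ˢ (Finset.univ : Finset (Fin k)) ⊆ Z := by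
          rintro ⟨v, i⟩ h
          rw [Finset.mem_product, Finset.mem_insert, Finset.mem_singleton] at h
          obtain ⟨h, _⟩ := h
          rcases h with h | h
          · have h' : v = u := h
            subst h'
            exact hcon i
          · have h' : v = z := h
            subst h'
            exact hz i
        have h2 := Finset.card_le_card h1
        rw [Finset.card_product, Finset.card_pair hu', Finset.card_univ, Fintype.card_fin] at h2
        omega
      refine bl_pre hA ?_ (hG2 z)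
      rintro u i hu rfl
      exact hu (hz i)
    · push Not at hf
      exact bl_pre (A := Set.univ) (fun u _ => hf u) (fun u _ _ => Set.mem_univ u) (pre_univ hG)

theorem bl_not [Finite V] (hk : 1 ≤ k) (hG2 : ¬ TwoConn G) : ¬ KConn (k + 1) (Bl G k) := by
  classical
  intro h
  apply hG2
  rintro z ⟨x, hx⟩ ⟨y, hy⟩
  have h1 := h.2 (({z} : Finset V) ×ˢ (Finset.univ : Finset (Fin k))) (by
    rw [Finset.card_product, Finset.card_singleton, Finset.card_univ, Fintype.card_fin]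
    omega)
  have hm : ∀ x : V, x ∈ ({z}ᶜ : Set V) → (x, (⟨0, hk⟩ : Fin k)) ∈
      ((({z} : Finset V) ×ˢ (Finset.univ : Finset (Fin k)) : Finset (V × Fin k)) :
        Set (V × Fin k))ᶜ := by
    intro x hx h2
    apply hx
    simp only [Finset.coe_product, Set.mem_prod] at h2
    simpa using h2.1
  obtain ⟨w⟩ := h1 ⟨_, hm x hx⟩ ⟨_, hm y hy⟩
  exact bl_back w hx hy

theorem bl_deg {d : ℕ} (hd : ∀ v : V, (G.neighborSet v).Finite ∧ (G.neighborSet v).ncard = d)
    (x : V × Fin k) : ((Bl G k).neighborSet x).ncard = d * k + (k - 1) := by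
  classical
  obtain ⟨v, i⟩ := x
  have h1 : (Bl G k).neighborSet (v, i) =
      (G.neighborSet v) ×ˢ (Set.univ : Set (Fin k)) ∪ ({v} : Set V) ×ˢ ({i}ᶜ : Set (Fin k)) := by
    ext ⟨u, j⟩
    simp only [mem_neighborSet, Set.mem_union, Set.mem_prod, Set.mem_univ, and_true,
      Set.mem_singleton_iff, Set.mem_compl_iff]
    show (G.Adj v u ∨ (v = u ∧ i ≠ j)) ↔ _
    constructor
    · rintro (h | ⟨h1, h2⟩)
      · exact Or.inl h
      · exact Or.inr ⟨h1.symm, Ne.symm h2⟩
    · rintro (h | ⟨h1, h2⟩)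
      · exact Or.inl h
      · exact Or.inr ⟨h1.symm, Ne.symm h2⟩
  rw [h1, Set.ncard_union_eq ?_ ((hd v).1.prod Set.finite_univ) (Set.toFinite _), Set.ncard_prod,
    Set.ncard_prod, (hd v).2, Set.ncard_univ, Nat.card_eq_fintype_card, Fintype.card_fin,
    Set.ncard_singleton, Set.ncard_compl, Set.ncard_singleton, Nat.card_eq_fintype_card,
    Fintype.card_fin, one_mul]
  rw [Set.disjoint_left]
  rintro ⟨u, j⟩ h2 h3
  have h4 : u = v := h3.1
  subst h4
  exact G.loopless.irrefl _ h2.1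

end

/-! ### transport to `Fin n` -/

theorem kconn_iso {V W : Type} {G : SimpleGraph V} {H : SimpleGraph W} (e : V ≃ W)
    (he : ∀ x y, H.Adj (e x) (e y) ↔ G.Adj x y) {k : ℕ} (hG : KConn k G) : KConn k H := by
  classical
  refine ⟨by rw [← Nat.card_congr e]; exact hG.1, fun Z hZ => ?_⟩
  have h1 := hG.2 (Z.map e.symm.toEmbedding) (by rw [Finset.card_map]; exact hZ)
  have hm : ∀ y : W, y ∈ ((Z : Set W)ᶜ) →
      e.symm y ∈ (((Z.map e.symm.toEmbedding : Finset V) : Set V)ᶜ) := by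
    intro y hy h2
    apply hy
    simpa using h2
  have hm2 : ∀ x : V, x ∈ (((Z.map e.symm.toEmbedding : Finset V) : Set V)ᶜ) →
      e x ∈ ((Z : Set W)ᶜ) := by
    intro x hx h2
    apply hx
    simp only [Finset.coe_map, Set.mem_image]
    exact ⟨e x, h2, by simp⟩
  rintro ⟨x, hx⟩ ⟨y, hy⟩
  have h2 := h1 ⟨_, hm x hx⟩ ⟨_, hm y hy⟩
  let f : G.induce (((Z.map e.symm.toEmbedding : Finset V) : Set V)ᶜ) →g H.induce (Z : Set W)ᶜ :=
    ⟨fun v => ⟨e v.1, hm2 v.1 v.2⟩, fun {a b} h => (he a.1 b.1).2 h⟩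
  have h3 := h2.map f
  have e1 : f ⟨_, hm x hx⟩ = ⟨x, hx⟩ := Subtype.ext (e.apply_symm_apply x)
  have e2 : f ⟨_, hm y hy⟩ = ⟨y, hy⟩ := Subtype.ext (e.apply_symm_apply y)
  rwa [e1, e2] at h3

theorem to_fin' {V : Type} [Finite V] (G : SimpleGraph V) :
    ∃ (H : SimpleGraph (Fin (Nat.card V))) (e : V ≃ Fin (Nat.card V)),
      ∀ x y, H.Adj (e x) (e y) ↔ G.Adj x y :=
  ⟨G.comap (Finite.equivFin V).symm, Finite.equivFin V, fun x y => by simp⟩

end Pool.Agent.KS6_49.TC
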