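import Pool.Agent.KS6_49.TC.Defs

/-!
TC-G (helper422), part 1: general lemmas on the class `Good g`, and the Cayley graph of a
3-group with large girth.
-/

set_option autoImplicit false

namespace Pool.Agent.KS6_49.TC
namespace TCG

open SimpleGraph Relation

/-! ## general lemmas -/

section general

variable {V : Type}

lemma reach_card {G : SimpleGraph V}
    (hd : ∀ v : V, (G.neighborSet v).Finite ∧ (G.neighborSet v).ncard = 4) (x : V) :
    ∀ k : ℕ, ∃ S : Finset V, (∀ v, Reach G x k v → v ∈ S) ∧ S.card ≤ 5 ^ k := by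
  classical
  intro k
  induction k with
  | zero =>
    refine ⟨{x}, fun v hv => ?_, by simp⟩
    cases hv
    simp
  | succ k ih =>
    obtain ⟨S, h1, h2⟩ := ih
    refine ⟨insert x (S.biUnion fun u => (hd u).1.toFinset), fun v hv => ?_, ?_⟩
    · cases hv with
      | refl => exact Finset.mem_insert_self _ _
      | step hu hadj =>
        refine Finset.mem_insert_of_mem (Finset.mem_biUnion.2 ⟨_, h1 _ hu, ?_⟩)
        rw [Set.Finite.mem_toFinset]
        exact hadj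
    · refine (Finset.card_insert_le _ _).trans ?_
      have h3 : (S.biUnion fun u => (hd u).1.toFinset).card ≤ S.card * 4 := by
        refine Finset.card_biUnion_le_card_mul _ _ _ fun u _ => ?_
        rw [← Set.ncard_eq_toFinset_card _ (hd u).1]
        exact (hd u).2.le
      have h4 : 1 ≤ 5 ^ k := Nat.one_le_pow _ _ (by norm_num)
      rw [pow_succ]
      omega

lemma far_of_card [Fintype V] {G : SimpleGraph V}
    (hd : ∀ v : V, (G.neighborSet v).Finite ∧ (G.neighborSet v).ncard = 4) {g : ℕ}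
    (hc : g * 5 ^ g < Fintype.card V) (A : Finset V) (hA : A.card ≤ g) :
    ∃ v : V, ∀ a ∈ A, ¬ Reach G a g v := by
  classical
  by_contra hcon
  push Not at hcon
  choose S hS1 hS2 using fun x => reach_card hd x g
  have h1 : (Finset.univ : Finset V) ⊆ A.biUnion S := by
    intro v _
    obtain ⟨a, ha, hr⟩ := hcon v
    exact Finset.mem_biUnion.2 ⟨a, ha, hS1 a v hr⟩
  have h2 := Finset.card_le_card h1
  rw [Finset.card_univ] at h2
  have h3 : (A.biUnion S).card ≤ A.card * 5 ^ g :=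
    Finset.card_biUnion_le_card_mul _ _ _ fun a _ => hS2 a
  have h4 : A.card * 5 ^ g ≤ g * 5 ^ g := Nat.mul_le_mul_right _ hA
  omega

lemma refl_of_even {G : SimpleGraph V} : ∀ (n : ℕ) {x y : V} (w : G.Walk x y),
    w.length = 2 * n → ReflTransGen (fun a b => ∃ m, G.Adj a m ∧ G.Adj m b) x y
  | 0, x, y, w, h => by
    have := Walk.eq_of_length_eq_zero (by simpa using h)
    rw [this]
  | n + 1, x, y, w, h => by
    cases w with
    | nil => simp at h
    | cons h1 w =>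
      cases w with
      | nil => simp only [Walk.length_cons, Walk.length_nil] at h; omega
      | cons h2 w =>
        refine ReflTransGen.head ⟨_, h1, h2⟩ (refl_of_even n w ?_)
        simp only [Walk.length_cons] at h
        omega

lemma even_of {G : SimpleGraph V} (hc : G.Preconnected) {o : V} (w : G.Walk o o)
    (hw : Odd w.length) (hn : ∀ v, ∃ m, G.Adj v m) (x y : V) :
    TransGen (fun a b => ∃ m, G.Adj a m ∧ G.Adj m b) x y := by
  have key : ∃ (n : ℕ) (w' : G.Walk x y), w'.length = 2 * n := by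
    obtain ⟨w1⟩ := hc x o
    obtain ⟨w2⟩ := hc o y
    rcases Nat.even_or_odd (w1.length + w2.length) with h | h
    · obtain ⟨n, hn⟩ := h
      refine ⟨n, w1.append w2, ?_⟩
      rw [Walk.length_append]
      omega
    · obtain ⟨n, hn⟩ := h
      obtain ⟨m, hm⟩ := hw
      refine ⟨n + m + 1, w1.append (w.append w2), ?_⟩
      rw [Walk.length_append, Walk.length_append]
      omega
  obtain ⟨n, w', hw'⟩ := key
  obtain ⟨m, hm⟩ := hn x
  exact TransGen.head' ⟨m, hm, hm.symm⟩ (refl_of_even n w' hw')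

/-! ### transport -/

lemma nbw_map {V W : Type} {G : SimpleGraph V} {H : SimpleGraph W} (f : V → W)
    (hf : Function.Injective f) (h : ∀ x y, G.Adj x y → H.Adj (f x) (f y)) {x u v : V} {n : ℕ}
    (hw : NBW G x u v n) : NBW H (f x) (f u) (f v) n := by
  induction hw with
  | base h1 => exact NBW.base (h _ _ h1)
  | step _ h2 h3 ih => exact NBW.step ih (h _ _ h2) (fun h4 => h3 (hf h4))

lemma reach_map {V W : Type} {G : SimpleGraph V} {H : SimpleGraph W} (f : V → W)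
    (h : ∀ x y, G.Adj x y → H.Adj (f x) (f y)) {x v : V} {n : ℕ}
    (hw : Reach G x n v) : Reach H (f x) n (f v) := by
  induction hw with
  | refl k => exact Reach.refl k
  | step _ h2 ih => exact Reach.step ih (h _ _ h2)

lemma good_iso {V W : Type} {G : SimpleGraph V} {H : SimpleGraph W} (e : G ≃g H) {g : ℕ}
    (hG : Good g G) : Good g H := by
  classical
  have hadj : ∀ x y, H.Adj x y → G.Adj (e.symm x) (e.symm y) :=
    fun x y h => (Iso.map_adj_iff e.symm).2 h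
  have hadj' : ∀ x y, G.Adj x y → H.Adj (e x) (e y) := fun x y h => (Iso.map_adj_iff e).2 h
  refine ⟨fun v => ?_, fun x u n hn hw => ?_, fun x y => ?_, fun A hA => ?_⟩
  · have h1 : H.neighborSet v = e '' G.neighborSet (e.symm v) := by
      ext w
      constructor
      · intro h
        exact ⟨e.symm w, hadj _ _ h, by simp⟩
      · rintro ⟨w', h, rfl⟩
        have := hadj' _ _ h
        simpa using this
    rw [h1, Set.ncard_image_of_injective _ e.injective]
    exact ⟨(hG.deg _).1.image _, (hG.deg _).2⟩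
  · exact hG.nb _ _ n hn (nbw_map e.symm e.symm.injective hadj hw)
  · have h1 := hG.even (e.symm x) (e.symm y)
    have h2 : TransGen (fun a b => ∃ m, H.Adj a m ∧ H.Adj m b) (e (e.symm x)) (e (e.symm y)) := by
      refine TransGen.lift e (fun a b hab => ?_) _ _ h1
      obtain ⟨m, h3, h4⟩ := hab
      exact ⟨e m, hadj' _ _ h3, hadj' _ _ h4⟩
    simpa using h2
  · obtain ⟨v, hv⟩ := hG.far (A.image e.symm) (Finset.card_image_le.trans hA)
    refine ⟨e v, fun a ha hr => ?_⟩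
    refine hv (e.symm a) (Finset.mem_image_of_mem _ ha) ?_
    have := reach_map e.symm hadj hr
    simpa using this

lemma two_iso {V W : Type} {G : SimpleGraph V} {H : SimpleGraph W} (e : G ≃g H)
    (hG : TwoConn G) : TwoConn H := by
  intro z
  have h1 := hG (e.symm z)
  refine Preconnected.map (G := G.induce {e.symm z}ᶜ) (H := H.induce {z}ᶜ)
    ⟨fun x => ⟨e x.1, ?_⟩, ?_⟩ ?_ h1
  · have := x.2
    rw [Set.mem_compl_iff, Set.mem_singleton_iff] at this ⊢
    intro h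
    apply this
    have h2 := congrArg e.symm h
    simpa using h2
  · rintro ⟨x, hx⟩ ⟨y, hy⟩ h
    exact (Iso.map_adj_iff e).2 h
  · rintro ⟨y, hy⟩
    refine ⟨⟨e.symm y, ?_⟩, ?_⟩
    · rw [Set.mem_compl_iff, Set.mem_singleton_iff] at hy ⊢
      intro h
      exact hy (e.symm.injective h)
    · exact Subtype.ext (by simp)

lemma to_fin {V : Type} [Fintype V] (G : SimpleGraph V) :
    ∃ (n : ℕ) (H : SimpleGraph (Fin n)), Nonempty (G ≃g H) := by
  classical
  refine ⟨Fintype.card V, G.comap (Fintype.equivFin V).symm, ⟨⟨Fintype.equivFin V, ?_⟩⟩⟩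
  intro a b
  simp

end general

/-! ## the group -/

/-- integers modulo `3 ^ (M + 1)` -/
abbrev Z (M : ℕ) := ZMod (3 ^ (M + 1))

/-- sign -/
def sg (ε : Bool) : ℤ := if ε then 1 else -1

/-- letters -/
abbrev Lt := Bool × Bool

/-- the inverse letter -/
def linv (s : Lt) : Lt := (s.1, !s.2)

/-- the generators -/
def gen (M : ℕ) : Lt → Equiv.Perm (Z M × Z M)
  | (false, ε) =>
    { toFun := fun p => (p.1 + 3 * (sg ε : Z M) * p.2, p.2)
      invFun := fun p => (p.1 - 3 * (sg ε : Z M) * p.2, p.2)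
      left_inv := by rintro ⟨x, y⟩; simp
      right_inv := by rintro ⟨x, y⟩; simp }
  | (true, ε) =>
    { toFun := fun p => (p.1, p.2 + 3 * (sg ε : Z M) * p.1)
      invFun := fun p => (p.1, p.2 - 3 * (sg ε : Z M) * p.1)
      left_inv := by rintro ⟨x, y⟩; simp
      right_inv := by rintro ⟨x, y⟩; simp }

/-- the action on integer vectors -/
def fv : Lt → ℤ × ℤ → ℤ × ℤ
  | (false, ε), v => (v.1 + 3 * sg ε * v.2, v.2)
  | (true, ε), v => (v.1, v.2 + 3 * sg ε * v.1)

/-- reduction -/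
def cst (M : ℕ) (v : ℤ × ℤ) : Z M × Z M := ((v.1 : Z M), (v.2 : Z M))

lemma gen_cst (M : ℕ) (s : Lt) (v : ℤ × ℤ) : gen M s (cst M v) = cst M (fv s v) := by
  obtain ⟨i, ε⟩ := s
  cases i
  · change ((v.1 : Z M) + 3 * (sg ε : Z M) * (v.2 : Z M), (v.2 : Z M)) = _
    simp only [cst, fv]
    push_cast
    rfl
  · change ((v.1 : Z M), (v.2 : Z M) + 3 * (sg ε : Z M) * (v.1 : Z M)) = _
    simp only [cst, fv]
    push_cast
    rfl

lemma gen_linv (M : ℕ) (s : Lt) : gen M (linv s) * gen M s = 1 := by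
  obtain ⟨i, ε⟩ := s
  ext p
  · cases i <;> cases ε <;> simp [gen, linv, sg]
  · cases i <;> cases ε <;> simp [gen, linv, sg]

/-- the invariant -/
def Iv : Lt → ℤ × ℤ → Prop
  | (false, ε), v => 2 * v.2 ^ 2 ≤ sg ε * v.1 * v.2 ∧ v.2 ≠ 0
  | (true, ε), v => 2 * v.1 ^ 2 ≤ sg ε * v.1 * v.2 ∧ v.1 ≠ 0

lemma Iv_start (s : Lt) : Iv s (fv s (1, 1)) := by
  obtain ⟨i, ε⟩ := s
  cases i <;> cases ε <;> simp [Iv, fv, sg]

lemma Iv_ne (s : Lt) : ¬ Iv s (1, 1) := by
  obtain ⟨i, ε⟩ := s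
  cases i <;> cases ε <;> simp [Iv, sg]

lemma aux1 {x y q : ℤ} (h1 : 2 * y ^ 2 ≤ q) (hq : q = x * y ∨ q = -(x * y)) (hy : y ≠ 0) :
    q ≤ x ^ 2 ∧ x ≠ 0 := by
  have hy2 : 0 < y ^ 2 := by positivity
  constructor
  · rcases hq with rfl | rfl
    · nlinarith [sq_nonneg (x - y)]
    · nlinarith [sq_nonneg (x + y)]
  · rintro rfl
    rcases hq with rfl | rfl <;> nlinarith

lemma Iv_step {s t : Lt} (hst : t ≠ linv s) {v : ℤ × ℤ} (h : Iv s v) : Iv t (fv t v) := by
  obtain ⟨i, ε⟩ := s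
  obtain ⟨j, η⟩ := t
  obtain ⟨x, y⟩ := v
  cases i <;> cases j
  · have : η = ε := by
      cases η <;> cases ε <;> simp_all [linv]
    subst this
    simp only [Iv, fv] at h ⊢
    cases η <;> simp only [sg, if_true, Bool.false_eq_true, if_false] at h ⊢
    · exact ⟨by nlinarith [h.1, sq_nonneg y], h.2⟩
    · exact ⟨by nlinarith [h.1, sq_nonneg y], h.2⟩
  · simp only [Iv, fv] at h ⊢
    obtain ⟨h1, h2⟩ := h
    cases η <;> cases ε <;> simp only [sg, if_true, Bool.false_eq_true, if_false] at h1 ⊢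
    · obtain ⟨h3, h4⟩ := aux1 (x := x) (y := y) (q := -1 * x * y) h1 (Or.inr (by ring)) h2
      exact ⟨by nlinarith [sq_nonneg x, sq_nonneg y], h4⟩
    · obtain ⟨h3, h4⟩ := aux1 (x := x) (y := y) (q := 1 * x * y) h1 (Or.inl (by ring)) h2
      exact ⟨by nlinarith [sq_nonneg x, sq_nonneg y], h4⟩
    · obtain ⟨h3, h4⟩ := aux1 (x := x) (y := y) (q := -1 * x * y) h1 (Or.inr (by ring)) h2
      exact ⟨by nlinarith [sq_nonneg x, sq_nonneg y], h4⟩
    · obtain ⟨h3, h4⟩ := aux1 (x := x) (y := y) (q := 1 * x * y) h1 (Or.inl (by ring)) h2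
      exact ⟨by nlinarith [sq_nonneg x, sq_nonneg y], h4⟩
  · simp only [Iv, fv] at h ⊢
    obtain ⟨h1, h2⟩ := h
    cases η <;> cases ε <;> simp only [sg, if_true, Bool.false_eq_true, if_false] at h1 ⊢
    · obtain ⟨h3, h4⟩ := aux1 (x := y) (y := x) (q := -1 * x * y) h1 (Or.inr (by ring)) h2
      exact ⟨by nlinarith [sq_nonneg x, sq_nonneg y], h4⟩
    · obtain ⟨h3, h4⟩ := aux1 (x := y) (y := x) (q := 1 * x * y) h1 (Or.inl (by ring)) h2
      exact ⟨by nlinarith [sq_nonneg x, sq_nonneg y], h4⟩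
    · obtain ⟨h3, h4⟩ := aux1 (x := y) (y := x) (q := -1 * x * y) h1 (Or.inr (by ring)) h2
      exact ⟨by nlinarith [sq_nonneg x, sq_nonneg y], h4⟩
    · obtain ⟨h3, h4⟩ := aux1 (x := y) (y := x) (q := 1 * x * y) h1 (Or.inl (by ring)) h2
      exact ⟨by nlinarith [sq_nonneg x, sq_nonneg y], h4⟩
  · have : η = ε := by
      cases η <;> cases ε <;> simp_all [linv]
    subst this
    simp only [Iv, fv] at h ⊢
    cases η <;> simp only [sg, if_true, Bool.false_eq_true, if_false] at h ⊢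
    · exact ⟨by nlinarith [h.1, sq_nonneg x], h.2⟩
    · exact ⟨by nlinarith [h.1, sq_nonneg x], h.2⟩

lemma fv_size (s : Lt) {v : ℤ × ℤ} {B : ℤ} (h1 : |v.1| ≤ B) (h2 : |v.2| ≤ B) :
    |(fv s v).1| ≤ 4 * B ∧ |(fv s v).2| ≤ 4 * B := by
  obtain ⟨i, ε⟩ := s
  rw [abs_le] at h1 h2
  cases i <;> cases ε <;> simp only [fv, sg, if_true, Bool.false_eq_true, if_false] <;>
    refine ⟨abs_le.2 ⟨?_, ?_⟩, abs_le.2 ⟨?_, ?_⟩⟩ <;> linarith

lemma gen_pow_false (M : ℕ) (ε : Bool) (p : Z M × Z M) (j : ℕ) :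
    ((gen M (false, ε)) ^ j) p = (p.1 + 3 * j * (sg ε : Z M) * p.2, p.2) := by
  induction j with
  | zero => simp
  | succ j ih =>
    rw [pow_succ', Equiv.Perm.mul_apply, ih]
    change ((p.1 + 3 * (j : Z M) * (sg ε : Z M) * p.2) + 3 * (sg ε : Z M) * p.2, p.2) = _
    push_cast
    congr 1
    ring

lemma gen_pow_true (M : ℕ) (ε : Bool) (p : Z M × Z M) (j : ℕ) :
    ((gen M (true, ε)) ^ j) p = (p.1, p.2 + 3 * j * (sg ε : Z M) * p.1) := by
  induction j with
  | zero => simp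
  | succ j ih =>
    rw [pow_succ', Equiv.Perm.mul_apply, ih]
    change (p.1, (p.2 + 3 * (j : Z M) * (sg ε : Z M) * p.1) + 3 * (sg ε : Z M) * p.1) = _
    push_cast
    congr 1
    ring

lemma three_pow (M : ℕ) : (3 * ((3 ^ M : ℕ) : Z M)) = 0 := by
  have h := ZMod.natCast_self (3 ^ (M + 1))
  rw [pow_succ] at h
  push_cast at h ⊢
  rw [mul_comm]
  exact h

lemma gen_order (M : ℕ) (s : Lt) : gen M s ^ (3 ^ M) = 1 := by
  obtain ⟨i, ε⟩ := s
  refine Equiv.ext fun p => ?_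
  cases i
  · rw [gen_pow_false, three_pow]
    simp
  · rw [gen_pow_true, three_pow]
    simp

/-- the group -/
abbrev Gm (M : ℕ) := (Subgroup.closure (Set.range (gen M)) : Subgroup (Equiv.Perm (Z M × Z M)))

/-- the generators as elements of the group -/
def ge (M : ℕ) (s : Lt) : Gm M := ⟨gen M s, Subgroup.subset_closure ⟨s, rfl⟩⟩

lemma ge_linv (M : ℕ) (s : Lt) : ge M (linv s) * ge M s = 1 := Subtype.ext (gen_linv M s)

lemma ge_order (M : ℕ) (s : Lt) : ge M s ^ (3 ^ M) = 1 :=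
  Subtype.ext (by rw [Subgroup.coe_pow]; exact gen_order M s)

/-- the Cayley graph -/
def Cg (M : ℕ) : SimpleGraph (Gm M) where
  Adj x y := x ≠ y ∧ ∃ s, y = ge M s * x
  symm := ⟨by
    rintro x y ⟨h, s, rfl⟩
    refine ⟨h.symm, linv s, ?_⟩
    rw [← mul_assoc, ge_linv, one_mul]⟩
  loopless := ⟨fun x h => h.1 rfl⟩

lemma nbw_C (M : ℕ) {x u v : Gm M} {n : ℕ} (h : NBW (Cg M) x u v n) :
    ∃ (s : Lt) (w : ℤ × ℤ), v = ge M s * u ∧
      ((v * x⁻¹ : Gm M) : Equiv.Perm (Z M × Z M)) (cst M (1, 1)) = cst M w ∧ Iv s w ∧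
      |w.1| ≤ 4 ^ (n + 1) ∧ |w.2| ≤ 4 ^ (n + 1) := by
  induction h with
  | base h1 =>
    obtain ⟨-, s, rfl⟩ := h1
    refine ⟨s, fv s (1, 1), rfl, ?_, Iv_start s, ?_⟩
    · rw [mul_inv_cancel_right]
      exact gen_cst M s (1, 1)
    · have := fv_size s (v := (1, 1)) (B := 1) (by simp) (by simp)
      simpa using this
  | @step u v w n h1 h2 h3 ih =>
    obtain ⟨s, p, e1, e2, e3, e4, e5⟩ := ih
    obtain ⟨-, t, rfl⟩ := h2
    have hst : t ≠ linv s := by
      rintro rfl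
      apply h3
      rw [e1, ← mul_assoc, ge_linv, one_mul]
    refine ⟨t, fv t p, rfl, ?_, Iv_step hst e3, ?_⟩
    · rw [mul_assoc, Subgroup.coe_mul, Equiv.Perm.mul_apply, e2]
      exact gen_cst M t p
    · have := fv_size t e4 e5
      rw [pow_succ 4 (n + 1)]
      refine ⟨this.1.trans (by linarith), this.2.trans (by linarith)⟩

lemma cast_one {M : ℕ} {B x : ℤ} (hB : B + 1 < 3 ^ (M + 1)) (hx : |x| ≤ B) (h : (x : Z M) = 1) :
    x = 1 := by
  have h1 : ((x - 1 : ℤ) : Z M) = 0 := by push_cast; rw [h]; ring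
  rw [ZMod.intCast_zmod_eq_zero_iff_dvd] at h1
  have h2 : |x - 1| < 3 ^ (M + 1) := by
    have := abs_sub x 1
    rw [abs_one] at this
    linarith
  have h3 : x - 1 = 0 := by
    refine Int.eq_zero_of_abs_lt_dvd h1 ?_
    push_cast
    exact h2
  linarith

lemma nb_C {M g : ℕ} (hM : 4 ^ g + 1 < 3 ^ (M + 1)) (x u : Gm M) (n : ℕ) (hn : n + 1 ≤ g) :
    ¬ NBW (Cg M) x u x n := by
  intro h
  obtain ⟨s, w, -, e2, e3, e4, e5⟩ := nbw_C M h
  rw [mul_inv_cancel, Subgroup.coe_one, Equiv.Perm.one_apply] at e2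
  have h1 : (4 : ℤ) ^ (n + 1) ≤ 4 ^ g := pow_le_pow_right₀ (by norm_num) hn
  have h2 : (4 : ℤ) ^ g + 1 < 3 ^ (M + 1) := by exact_mod_cast hM
  have e6 : ((1 : ℤ) : Z M) = (w.1 : Z M) := congrArg Prod.fst e2
  have e7 : ((1 : ℤ) : Z M) = (w.2 : Z M) := congrArg Prod.snd e2
  have h3 : w.1 = 1 := cast_one h2 (e4.trans h1) (by rw [← e6]; simp)
  have h4 : w.2 = 1 := cast_one h2 (e5.trans h1) (by rw [← e7]; simp)
  obtain ⟨w1, w2⟩ := w
  dsimp only at h3 h4
  subst h3 h4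
  exact Iv_ne s e3

lemma ge_inj {M : ℕ} (hM : 1 ≤ M) : Function.Injective (ge M) := by
  intro s t h
  have h1 : gen M s (cst M (1, 1)) = gen M t (cst M (1, 1)) := by
    have := congrArg Subtype.val h
    exact congrFun (congrArg DFunLike.coe this) _
  rw [gen_cst, gen_cst] at h1
  have h9 : (7 : ℤ) < 3 ^ (M + 1) := by
    have : (3 : ℤ) ^ 2 ≤ 3 ^ (M + 1) := pow_le_pow_right₀ (by norm_num) (by omega)
    linarith
  have hne : ∀ k l : ℤ, |k - l| < 3 ^ (M + 1) → (k : Z M) = (l : Z M) → k = l := by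
    intro k l h2 h3
    have h4 : ((k - l : ℤ) : Z M) = 0 := by push_cast; rw [h3]; ring
    rw [ZMod.intCast_zmod_eq_zero_iff_dvd] at h4
    have := Int.eq_zero_of_abs_lt_dvd h4 (by push_cast; exact h2)
    linarith
  have e1 := hne _ _ ?_ (congrArg Prod.fst h1)
  · have e2 := hne _ _ ?_ (congrArg Prod.snd h1)
    · obtain ⟨i, ε⟩ := s
      obtain ⟨j, η⟩ := t
      revert e1 e2
      cases i <;> cases j <;> cases ε <;> cases η <;> simp [fv, sg]
    · obtain ⟨i, ε⟩ := s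
      obtain ⟨j, η⟩ := t
      refine lt_of_le_of_lt ?_ h9
      cases i <;> cases j <;> cases ε <;> cases η <;> simp [fv, sg]
  · obtain ⟨i, ε⟩ := s
    obtain ⟨j, η⟩ := t
    refine lt_of_le_of_lt ?_ h9
    cases i <;> cases j <;> cases ε <;> cases η <;> simp [fv, sg]

lemma ge_ne_one {M : ℕ} (hM : 1 ≤ M) (s : Lt) : ge M s ≠ 1 := by
  intro h
  have h1 : ge M s = ge M (linv s) := by
    have h2 := ge_linv M s
    rw [h, mul_one] at h2
    rw [h, h2]
  have h3 := ge_inj hM h1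
  obtain ⟨i, ε⟩ := s
  have h4 := congrArg Prod.snd h3
  cases ε <;> simp [linv] at h4

lemma adj_C {M : ℕ} (hM : 1 ≤ M) (s : Lt) (x : Gm M) : (Cg M).Adj x (ge M s * x) := by
  refine ⟨fun h => ge_ne_one hM s ?_, s, rfl⟩
  exact (mul_eq_right.1 h.symm)

lemma deg_C {M : ℕ} (hM : 1 ≤ M) (v : Gm M) :
    ((Cg M).neighborSet v).Finite ∧ ((Cg M).neighborSet v).ncard = 4 := by
  have h1 : (Cg M).neighborSet v = Set.range fun s : Lt => ge M s * v := by
    ext w
    constructor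
    · rintro ⟨-, s, rfl⟩
      exact ⟨s, rfl⟩
    · rintro ⟨s, rfl⟩
      exact adj_C hM s v
  rw [h1]
  refine ⟨Set.finite_range _, ?_⟩
  have h2 : Function.Injective fun s : Lt => ge M s * v := by
    intro s t h
    exact ge_inj hM (mul_right_cancel h)
  rw [← Set.image_univ, Set.ncard_image_of_injective _ h2, Set.ncard_univ]
  simp

lemma conn_C {M : ℕ} (hM : 1 ≤ M) : (Cg M).Preconnected := by
  have key : ∀ (h : Equiv.Perm (Z M × Z M)) (hh : h ∈ Subgroup.closure (Set.range (gen M))),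
      ∀ x : Gm M, (Cg M).Reachable x (⟨h, hh⟩ * x) := by
    intro h hh
    induction hh using Subgroup.closure_induction with
    | mem h hh =>
      obtain ⟨s, rfl⟩ := hh
      intro x
      exact (adj_C hM s x).reachable
    | one =>
      intro x
      have : (⟨1, Subgroup.one_mem _⟩ : Gm M) * x = x := by
        apply Subtype.ext
        simp
      rw [this]
    | mul h k hh hk ih1 ih2 =>
      intro x
      have : (⟨h * k, Subgroup.mul_mem _ hh hk⟩ : Gm M) * x = ⟨h, hh⟩ * (⟨k, hk⟩ * x) := by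
        apply Subtype.ext
        simp [mul_assoc]
      rw [this]
      exact (ih2 x).trans (ih1 _)
    | inv h hh ih =>
      intro x
      have h1 := ih ((⟨h⁻¹, Subgroup.inv_mem _ hh⟩ : Gm M) * x)
      have : (⟨h, hh⟩ : Gm M) * ((⟨h⁻¹, Subgroup.inv_mem _ hh⟩ : Gm M) * x) = x := by
        apply Subtype.ext
        simp
      rw [this] at h1
      exact h1.symm
  intro x y
  have h1 := key (y * x⁻¹ : Gm M).1 (y * x⁻¹ : Gm M).2 x
  have h2 : (⟨(y * x⁻¹ : Gm M).1, (y * x⁻¹ : Gm M).2⟩ : Gm M) * x = y := by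
    apply Subtype.ext
    simp
  rw [h2] at h1
  exact h1

lemma card_C (M : ℕ) : 3 ^ M ≤ Nat.card (Gm M) := by
  have h1 : Function.Injective fun j : Fin (3 ^ M) => (ge M (true, true)) ^ (j : ℕ) := by
    intro i j h
    have h2 : ((gen M (true, true)) ^ (i : ℕ)) (cst M (1, 1)) =
        ((gen M (true, true)) ^ (j : ℕ)) (cst M (1, 1)) := by
      have h3 := congrArg Subtype.val h
      rw [Subgroup.coe_pow, Subgroup.coe_pow] at h3
      exact congrFun (congrArg DFunLike.coe h3) _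
    rw [gen_pow_true, gen_pow_true] at h2
    have h3 := congrArg Prod.snd h2
    simp only [cst, sg, if_true, Int.cast_one, mul_one, add_right_inj] at h3
    have h4 : ((3 * (i : ℕ) : ℕ) : Z M) = ((3 * (j : ℕ) : ℕ) : Z M) := by
      push_cast
      exact h3
    rw [ZMod.natCast_eq_natCast_iff'] at h4
    have hi : 3 * (i : ℕ) < 3 ^ (M + 1) := by
      rw [pow_succ]; have := i.2; omega
    have hj : 3 * (j : ℕ) < 3 ^ (M + 1) := by
      rw [pow_succ]; have := j.2; omega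
    rw [Nat.mod_eq_of_lt hi, Nat.mod_eq_of_lt hj] at h4
    exact Fin.ext (by omega)
  have h2 := Nat.card_le_card_of_injective _ h1
  rwa [Nat.card_eq_fintype_card, Fintype.card_fin] at h2

lemma a_not_pow {M : ℕ} (hM : 1 ≤ M) (j : ℕ) :
    ge M (true, true) ^ j ≠ ge M (false, true) := by
  intro h
  have h2 : ((gen M (true, true)) ^ j) (cst M (1, 1)) = gen M (false, true) (cst M (1, 1)) := by
    have h3 := congrArg Subtype.val h
    rw [Subgroup.coe_pow] at h3
    exact congrFun (congrArg DFunLike.coe h3) _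
  rw [gen_pow_true, gen_cst] at h2
  have h3 := congrArg Prod.fst h2
  simp only [cst, fv, sg, if_true] at h3
  have h4 : ((3 : ℕ) : Z M) = 0 := by
    push_cast at h3 ⊢
    linear_combination -h3
  rw [ZMod.natCast_eq_zero_iff] at h4
  have h5 := Nat.le_of_dvd (by norm_num) h4
  have h6 : 3 ^ 2 ≤ 3 ^ (M + 1) := Nat.pow_le_pow_right (by norm_num) (by omega)
  omega

/-- the walk `x, b x, b² x, ...` -/
lemma bwalk {V : Type} {G : SimpleGraph V} (f : ℕ → V) (m : ℕ)
    (h : ∀ j, j < m → G.Adj (f j) (f (j + 1))) : ∃ w : G.Walk (f 0) (f m), w.length = m := by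
  induction m with
  | zero => exact ⟨Walk.nil, rfl⟩
  | succ m ih =>
    obtain ⟨w, hw⟩ := ih fun j hj => h j (by omega)
    refine ⟨w.append (Walk.cons (h m (by omega)) Walk.nil), ?_⟩
    rw [Walk.length_append, hw]
    simp

lemma bwalk' {V : Type} {G : SimpleGraph V} (f : ℕ → V) (m : ℕ)
    (h : ∀ j, j < m → G.Adj (f j) (f (j + 1))) {x y : V} (hx : f 0 = x) (hy : f m = y) :
    ∃ w : G.Walk x y, w.length = m := by
  subst hx hy
  exact bwalk f m h

noncomputable instance (M : ℕ) : Fintype (Gm M) := by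
  classical
  haveI : NeZero (3 ^ (M + 1)) := ⟨by positivity⟩
  exact Fintype.ofFinite _

lemma exists_M (g : ℕ) : ∃ M : ℕ, 1 ≤ M ∧ 4 ^ g + 1 < 3 ^ (M + 1) ∧ g * 5 ^ g < 3 ^ M := by
  obtain ⟨A, hA⟩ : ∃ A, A = 4 ^ g := ⟨_, rfl⟩
  obtain ⟨B, hB⟩ : ∃ B, B = g * 5 ^ g := ⟨_, rfl⟩
  rw [← hA, ← hB]
  refine ⟨A + 1 + B, by omega, ?_, ?_⟩
  · have h1 : A + 1 + B + 1 < 3 ^ (A + 1 + B + 1) := Nat.lt_pow_self (by norm_num)
    omega
  · have h1 : A + 1 + B < 3 ^ (A + 1 + B) := Nat.lt_pow_self (by norm_num)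
    omega

lemma good_C {M g : ℕ} (hM : 1 ≤ M) (h1 : 4 ^ g + 1 < 3 ^ (M + 1)) (h2 : g * 5 ^ g < 3 ^ M) :
    Good g (Cg M) := by
  refine ⟨deg_C hM, nb_C h1, ?_, ?_⟩
  · obtain ⟨w, hw⟩ := bwalk' (G := Cg M) (fun j => ge M (true, true) ^ j) (3 ^ M) (by
      intro j _
      simp only [pow_succ']
      exact adj_C hM _ _) (x := 1) (y := 1) (pow_zero _) (ge_order M _)
    exact even_of (conn_C hM) w (by rw [hw]; exact Odd.pow (by decide))
      (fun v => ⟨_, adj_C hM (true, true) v⟩)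
  · intro A hA
    refine far_of_card (deg_C hM) ?_ A hA
    rw [← Nat.card_eq_fintype_card]
    exact h2.trans_le (card_C M)

lemma two_C {M : ℕ} (hM : 1 ≤ M) : TwoConn (Cg M) := by
  have hc : (Cg M).Connected := ⟨conn_C hM⟩
  obtain ⟨z₀, hz₀⟩ := hc.exists_preconnected_induce_compl_singleton_of_finite
  intro z
  refine Preconnected.map (G := (Cg M).induce {z₀}ᶜ) (H := (Cg M).induce {z}ᶜ)
    ⟨fun x => ⟨x.1 * (z₀⁻¹ * z), ?_⟩, ?_⟩ ?_ hz₀
  · have := x.2
    rw [Set.mem_compl_iff, Set.mem_singleton_iff] at this ⊢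
    intro h
    apply this
    rw [eq_mul_inv_of_mul_eq h]
    group
  · rintro ⟨x, hx⟩ ⟨y, hy⟩ ⟨h1, s, h2⟩
    refine ⟨fun h => h1 (mul_right_cancel h), s, ?_⟩
    change y * _ = ge M s * (x * _)
    change y = ge M s * x at h2
    rw [h2, mul_assoc]
  · rintro ⟨y, hy⟩
    refine ⟨⟨y * (z₀⁻¹ * z)⁻¹, ?_⟩, ?_⟩
    · rw [Set.mem_compl_iff, Set.mem_singleton_iff] at hy ⊢
      intro h
      apply hy
      rw [eq_mul_of_mul_inv_eq h]
      group
    · apply Subtype.ext
      change y * (z₀⁻¹ * z)⁻¹ * (z₀⁻¹ * z) = y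
      group

end TCG

theorem exists_twoConn (g : ℕ) : ∃ (n : ℕ) (G : SimpleGraph (Fin n)), Good g G ∧ TwoConn G := by
  obtain ⟨M, hM, h1, h2⟩ := TCG.exists_M g
  obtain ⟨n, H, ⟨e⟩⟩ := TCG.to_fin (TCG.Cg M)
  exact ⟨n, H, TCG.good_iso e (TCG.good_C hM h1 h2), TCG.two_iso e (TCG.two_C hM)⟩

end Pool.Agent.KS6_49.TC
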